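import Pool.Agent.Q297.BC.Prob

/-!
# The block argument
-/

open MeasureTheory ProbabilityTheory Filter Topology
open scoped ENNReal

namespace Pool.Agent.Q297.BC

/-- The linear functional with coefficients `a`, `b`. -/
noncomputable def fn (a b : ℝ) (z : Site) : ℝ := a * z.1 + b * z.2

theorem fn_add (a b : ℝ) (z w : Site) : fn a b (z + w) = fn a b z + fn a b w := by
  unfold fn; simp only [Prod.fst_add, Prod.snd_add]; push_cast; ring

theorem fn_box (a b : ℝ) {z w : Site} {r : ℕ} (h : w ∈ box z r) :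
    |fn a b w - fn a b z| ≤ (|a| + |b|) * r := by
  rw [mem_box] at h
  obtain ⟨h1, h2, h3, h4⟩ := h
  have e1 : |(w.1 : ℝ) - z.1| ≤ r := by
    rw [abs_le]
    constructor
    · have : ((z.1 - r : ℤ) : ℝ) ≤ w.1 := by exact_mod_cast h1
      push_cast at this; linarith
    · have : (w.1 : ℝ) ≤ ((z.1 + r : ℤ) : ℝ) := by exact_mod_cast h2
      push_cast at this; linarith
  have e2 : |(w.2 : ℝ) - z.2| ≤ r := by
    rw [abs_le]
    constructor
    · have : ((z.2 - r : ℤ) : ℝ) ≤ w.2 := by exact_mod_cast h3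
      push_cast at this; linarith
    · have : (w.2 : ℝ) ≤ ((z.2 + r : ℤ) : ℝ) := by exact_mod_cast h4
      push_cast at this; linarith
  have e3 : fn a b w - fn a b z = a * ((w.1 : ℝ) - z.1) + b * ((w.2 : ℝ) - z.2) := by
    unfold fn; ring
  rw [e3]
  calc |a * ((w.1 : ℝ) - z.1) + b * ((w.2 : ℝ) - z.2)|
      ≤ |a * ((w.1 : ℝ) - z.1)| + |b * ((w.2 : ℝ) - z.2)| := abs_add_le _ _
    _ = |a| * |(w.1 : ℝ) - z.1| + |b| * |(w.2 : ℝ) - z.2| := by rw [abs_mul, abs_mul]
    _ ≤ |a| * r + |b| * r := by gcongr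
    _ = _ := by ring

/-- The possible displacements at the first passage of the level `M`. -/
noncomputable def disp (a b : ℝ) (R M : ℕ) : Finset Site :=
  open Classical in
  (box 0 (R * M)).filter fun s => (M : ℝ) ≤ fn a b s ∧ fn a b s < M + (|a| + |b|) * R

theorem mem_disp {a b : ℝ} {R M : ℕ} {s : Site} :
    s ∈ disp a b R M ↔ s ∈ box 0 (R * M) ∧ (M : ℝ) ≤ fn a b s ∧
      fn a b s < M + (|a| + |b|) * R := by
  unfold disp; rw [Finset.mem_filter]

variable {U : Finset (Finset Site)} {X : Finset Site} {a b : ℝ} {R : ℕ}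

theorem exit_aux (hX : X ∈ U) (hf : ∀ y ∈ X, 1 ≤ fn a b y) (hR : Range U R) {A : Set Site}
    (z : Site) (M : ℕ) (n : ℕ) (hn : n ≤ M) :
    ∀ t : ℕ, z ∉ evo U (t + n) A →
      (∃ s ∈ disp a b R M, z + s ∉ evo U t A) ∨
      (∃ s ∈ box 0 (R * n), (n : ℝ) ≤ fn a b s ∧ fn a b s < M + (if n = 0 then 1 else 0) ∧
        z + s ∉ evo U t A) := by
  induction n with
  | zero =>
    intro t h
    refine Or.inr ⟨0, by rw [mem_box]; simp, by simp [fn], ?_, by simpa using h⟩
    simp only [fn, Prod.fst_zero, Prod.snd_zero, Int.cast_zero, mul_zero, add_zero, if_true]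
    positivity
  | succ n ih =>
    intro t h
    have h' : z ∉ evo U ((t + 1) + n) A := by
      have e : t + 1 + n = t + (n + 1) := by ring
      rw [e]; exact h
    rcases ih (by omega) (t + 1) h' with ⟨s, hs, hz⟩ | ⟨s, hs, h1, h2, hz⟩
    · exact Or.inl ⟨s, hs, not_evo_of_le (Nat.le_succ t) hz⟩
    · obtain ⟨y, hy, hzy⟩ := healthy_step hX hz
      have hyR := hR X hX y hy
      have hfy := hf y hy
      have hfy2 : |fn a b y - fn a b 0| ≤ (|a| + |b|) * R := by
        apply fn_box
        rw [mem_box]; simp only [Prod.fst_zero, Prod.snd_zero]; omega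
      have hf0 : fn a b (0 : Site) = 0 := by simp [fn]
      rw [hf0, sub_zero, abs_le] at hfy2
      have hbox : s + y ∈ box 0 (R * (n + 1)) := by
        rw [mem_box] at hs ⊢
        simp only [Prod.fst_zero, Prod.snd_zero, Prod.fst_add, Prod.snd_add] at hs ⊢
        push_cast at hs ⊢
        have e : (R : ℤ) * (n + 1) = R * n + R := by ring
        omega
      have hadd := fn_add a b s y
      rw [add_assoc] at hzy
      by_cases hlt : fn a b (s + y) < M
      · refine Or.inr ⟨s + y, hbox, ?_, ?_, hzy⟩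
        · rw [hadd]; push_cast; linarith
        · simpa using hlt
      · refine Or.inl ⟨s + y, ?_, hzy⟩
        rw [mem_disp]
        refine ⟨?_, not_lt.1 hlt, ?_⟩
        · rw [mem_box] at hbox ⊢
          have e : (R : ℤ) * (n + 1 : ℕ) ≤ R * M := by
            have : n + 1 ≤ M := hn
            have h3 : ((n + 1 : ℕ) : ℤ) ≤ M := by exact_mod_cast this
            nlinarith
          push_cast at hbox e ⊢
          omega
        · rcases Nat.eq_zero_or_pos n with rfl | hpos
          · -- the origin: `s = 0`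
            have hs0 : s = 0 := by
              rw [mem_box] at hs
              simp only [Prod.fst_zero, Prod.snd_zero, mul_zero, Nat.cast_zero] at hs
              ext <;> simp <;> omega
            rw [hs0, zero_add]
            have : (1 : ℝ) ≤ M := by exact_mod_cast hn
            linarith
          · rw [if_neg (by omega)] at h2
            rw [hadd]; linarith

/-- After `M` steps a healthy path has passed the level `M`. -/
theorem exit (hX : X ∈ U) (hf : ∀ y ∈ X, 1 ≤ fn a b y) (hR : Range U R) {A : Set Site}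
    (z : Site) {M : ℕ} (hM : 1 ≤ M) (t : ℕ) (h : z ∉ evo U (t + M) A) :
    ∃ s ∈ disp a b R M, z + s ∉ evo U t A := by
  rcases exit_aux hX hf hR z M M le_rfl t h with h1 | ⟨s, hs, h1, h2, hz⟩
  · exact h1
  · rw [if_neg (by omega)] at h2
    linarith

/-- Chains of healthy sites. -/
def Bad (U : Finset (Finset Site)) (t : ℕ) (S : Finset Site) : ℕ → Site → Set Conf
  | 0, z => {ω | z ∉ evo U t (ini ω)}
  | k + 1, z => {ω | z ∉ evo U t (ini ω)} ∩ ⋃ s ∈ S, Bad U t S k (z + s)

/-- The sites on which a chain depends. -/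
noncomputable def Dep (r : ℕ) (S : Finset Site) : ℕ → Site → Finset Site
  | 0, z => box z r
  | k + 1, z => by classical exact box z r ∪ S.biUnion fun s => Dep r S k (z + s)

theorem mem_Dep_succ {r : ℕ} {S : Finset Site} {k : ℕ} {z x : Site} :
    x ∈ Dep r S (k + 1) z ↔ x ∈ box z r ∨ ∃ s ∈ S, x ∈ Dep r S k (z + s) := by
  rw [Dep]; simp only [Finset.mem_union, Finset.mem_biUnion]

theorem depOn_base (hR : Range U R) (t : ℕ) (z : Site) :
    DepOn (box z (R * t)) {ω | z ∉ evo U t (ini ω)} := by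
  intro ω ω' h
  simp only [Set.mem_ofPred_eq]
  rw [evo_local hR t z (ini ω) (ini ω') (fun x hx => by unfold ini; simp [h x hx])]

theorem depOn_Bad (hR : Range U R) (t : ℕ) (S : Finset Site) (k : ℕ) :
    ∀ z, DepOn (Dep (R * t) S k z) (Bad U t S k z) := by
  induction k with
  | zero => intro z; exact depOn_base hR t z
  | succ k ih =>
    intro z ω ω' h
    rw [Bad]
    simp only [Set.mem_inter_iff, Set.mem_iUnion]
    have h1 := depOn_base hR t z ω ω' (fun x hx => h x (mem_Dep_succ.2 (Or.inl hx)))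
    have h2 : ∀ s ∈ S, (ω ∈ Bad U t S k (z + s) ↔ ω' ∈ Bad U t S k (z + s)) := fun s hs =>
      ih (z + s) ω ω' (fun x hx => h x (mem_Dep_succ.2 (Or.inr ⟨s, hs, hx⟩)))
    constructor
    · rintro ⟨ha, s, hs, hb⟩; exact ⟨h1.1 ha, s, hs, (h2 s hs).1 hb⟩
    · rintro ⟨ha, s, hs, hb⟩; exact ⟨h1.2 ha, s, hs, (h2 s hs).2 hb⟩

theorem fn_Dep (a b : ℝ) (r : ℕ) {S : Finset Site} (hS : ∀ s ∈ S, 0 ≤ fn a b s) (k : ℕ) :
    ∀ z, ∀ x ∈ Dep r S k z, fn a b z - (|a| + |b|) * r ≤ fn a b x := by
  induction k with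
  | zero =>
    intro z x hx
    have := fn_box a b (z := z) (w := x) (r := r) hx
    rw [abs_le] at this
    linarith
  | succ k ih =>
    intro z x hx
    rcases mem_Dep_succ.1 hx with hx | ⟨s, hs, hx⟩
    · have := fn_box a b (z := z) (w := x) (r := r) hx
      rw [abs_le] at this
      linarith
    · have h1 := ih (z + s) x hx
      rw [fn_add] at h1
      have := hS s hs
      linarith

theorem healthy_Bad (hX : X ∈ U) (hf : ∀ y ∈ X, 1 ≤ fn a b y) (hR : Range U R) {M : ℕ}
    (hM : 1 ≤ M) (t : ℕ) (k : ℕ) :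
    ∀ z (ω : Conf), z ∉ evo U (t + k * M) (ini ω) → ω ∈ Bad U t (disp a b R M) k z := by
  induction k with
  | zero => intro z ω h; simpa [Bad] using h
  | succ k ih =>
    intro z ω h
    rw [Bad]
    refine ⟨not_evo_of_le (Nat.le_add_right t _) h, ?_⟩
    have e : t + (k + 1) * M = (t + k * M) + M := by ring
    rw [e] at h
    obtain ⟨s, hs, hz⟩ := exit hX hf hR z hM (t + k * M) h
    simp only [Set.mem_iUnion]
    exact ⟨s, hs, ih (z + s) ω hz⟩

theorem base_shift (p : ℝ) (hR : Range U R) (t : ℕ) (z : Site) :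
    law p {ω | z ∉ evo U t (ini ω)} = law p {ω | (0 : Site) ∉ evo U t (ini ω)} := by
  rw [← law_shift p z (depOn_base hR t 0).measurable]
  congr 1
  ext ω
  simp only [Set.mem_ofPred_eq]
  have h := evo_shift U z t (ini ω) 0
  rw [zero_add] at h
  rw [← h]
  exact Iff.rfl

theorem law_Bad_le (p : ℝ) (hR : Range U R) (t : ℕ) {M : ℕ}
    (hM : 2 * ((|a| + |b|) * (R * t : ℕ)) < M) (k : ℕ) :
    ∀ z, law p (Bad U t (disp a b R M) k z) ≤
      (law p {ω | (0 : Site) ∉ evo U t (ini ω)} * (disp a b R M).card) ^ k := by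
  induction k with
  | zero => intro z; rw [pow_zero]; exact prob_le_one
  | succ k ih =>
    intro z
    set S := disp a b R M with hSdef
    have hS0 : ∀ s ∈ S, 0 ≤ fn a b s := fun s hs =>
      (Nat.cast_nonneg M).trans (mem_disp.1 hs).2.1
    have h1 : Bad U t S (k + 1) z =
        ⋃ s ∈ S, ({ω | z ∉ evo U t (ini ω)} ∩ Bad U t S k (z + s)) := by
      rw [Bad, Set.inter_iUnion₂]
    rw [h1]
    refine (measure_biUnion_finset_le S _).trans ?_
    have h2 : ∀ s ∈ S, law p ({ω | z ∉ evo U t (ini ω)} ∩ Bad U t S k (z + s)) ≤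
        law p {ω | (0 : Site) ∉ evo U t (ini ω)} *
          (law p {ω | (0 : Site) ∉ evo U t (ini ω)} * S.card) ^ k := by
      intro s hs
      rw [indep p (depOn_base hR t z) (depOn_Bad hR t S k (z + s)), base_shift p hR t z]
      · gcongr
        exact ih (z + s)
      · rw [Finset.disjoint_left]
        intro x hx1 hx2
        have e1 := fn_box a b hx1
        rw [abs_le] at e1
        have e2 := fn_Dep a b (R * t) hS0 k (z + s) x hx2
        rw [fn_add] at e2
        have e3 := (mem_disp.1 hs).2.1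
        linarith [e1.2]
    refine (Finset.sum_le_sum h2).trans ?_
    rw [Finset.sum_const, nsmul_eq_mul, pow_succ]
    apply le_of_eq
    ring

/-- If the expected number of healthy exits is below one then the origin is infected almost
surely. -/
theorem law_never (p : ℝ) (hX : X ∈ U) (hf : ∀ y ∈ X, 1 ≤ fn a b y) (hR : Range U R) (t : ℕ)
    {M : ℕ} (hM1 : 1 ≤ M) (hM : 2 * ((|a| + |b|) * (R * t : ℕ)) < M)
    (hlt : law p {ω | (0 : Site) ∉ evo U t (ini ω)} * (disp a b R M).card < 1) (z : Site) :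
    law p {ω | z ∉ clos U (ini ω)} = 0 := by
  have h1 : ∀ k, law p {ω | z ∉ clos U (ini ω)} ≤
      (law p {ω | (0 : Site) ∉ evo U t (ini ω)} * (disp a b R M).card) ^ k := by
    intro k
    refine (measure_mono ?_).trans (law_Bad_le p hR t hM k z)
    intro ω hω
    apply healthy_Bad hX hf hR hM1 t k z ω
    intro hcon
    apply hω
    exact Set.mem_iUnion.2 ⟨_, hcon⟩
  have h2 := ENNReal.tendsto_pow_atTop_nhds_zero_of_lt_one hlt
  exact le_antisymm (ge_of_tendsto' h2 h1) bot_le

theorem law_perc (p : ℝ) (hX : X ∈ U) (hf : ∀ y ∈ X, 1 ≤ fn a b y) (hR : Range U R) (t : ℕ)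
    {M : ℕ} (hM1 : 1 ≤ M) (hM : 2 * ((|a| + |b|) * (R * t : ℕ)) < M)
    (hlt : law p {ω | (0 : Site) ∉ evo U t (ini ω)} * (disp a b R M).card < 1) :
    law p (perc U) = 1 := by
  have h1 : ∀ᵐ ω ∂(law p), ∀ z : Site, z ∈ clos U (ini ω) := by
    rw [ae_all_iff]
    intro z
    rw [ae_iff]
    exact law_never p hX hf hR t hM1 hM hlt z
  have h2 : ∀ᵐ ω ∂(law p), ω ∈ perc U := by
    filter_upwards [h1] with ω hω
    exact Set.eq_univ_of_forall hω
  have h3 : law p (perc U)ᶜ = 0 := ae_iff.1 h2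
  exact (prob_compl_eq_zero_iff₀ (NullMeasurableSet.of_compl (NullMeasurableSet.of_null h3))).1 h3

end Pool.Agent.Q297.BC
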