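import Pool.Agent.Q297.BC.Block

/-!
# The number of exits
-/

open MeasureTheory ProbabilityTheory Filter Topology
open scoped ENNReal

namespace Pool.Agent.Q297.BC

theorem strip_card {a b : ℝ} (hb : b ≠ 0) (c F : ℝ) (r : ℕ) (S : Finset Site)
    (hS : ∀ z ∈ S, z ∈ box 0 r ∧ c ≤ fn a b z ∧ fn a b z < c + F) :
    S.card ≤ (⌊F / |b|⌋₊ + 1) * (2 * r + 1) := by
  classical
  have hcard : (Finset.Icc (-(r : ℤ)) r).card = 2 * r + 1 := by
    rw [Int.card_Icc]; omega
  rw [← hcard]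
  refine Finset.card_le_mul_card_image_of_maps_to (f := Prod.fst) ?_ _ ?_
  · intro z hz
    have := mem_box.1 (hS z hz).1
    simp only [Prod.fst_zero, Prod.snd_zero] at this
    rw [Finset.mem_Icc]; omega
  · intro x _
    set G := S.filter (fun z => z.1 = x) with hG
    rcases G.eq_empty_or_nonempty with h0 | hne
    · rw [h0]; simp
    · obtain ⟨m, hm, hmin⟩ := Finset.exists_min_image G (fun z => z.2) hne
      have hmG := Finset.mem_filter.1 hm
      have hQ : (Finset.Icc m.2 (m.2 + ⌊F / |b|⌋₊)).card = ⌊F / |b|⌋₊ + 1 := by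
        rw [Int.card_Icc]; omega
      rw [← hQ]
      refine Finset.card_le_card_of_injOn (fun z => z.2) ?_ ?_
      · intro z hz
        have hzG := Finset.mem_filter.1 (Finset.mem_coe.1 hz)
        have h1 := hmin z hz
        simp only [Finset.coe_Icc, Set.mem_Icc]
        refine ⟨h1, ?_⟩
        have hz1 := (hS z hzG.1).2
        have hm1 := (hS m hmG.1).2
        unfold fn at hz1 hm1
        have e1 : z.1 = m.1 := hzG.2.trans hmG.2.symm
        rw [e1] at hz1
        have hlt : |b * ((z.2 : ℝ) - m.2)| < F := by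
          rw [abs_lt]; constructor <;> linarith [hz1.1, hz1.2, hm1.1, hm1.2]
        rw [abs_mul] at hlt
        have hbpos : 0 < |b| := abs_pos.2 hb
        have hlt2 : |(z.2 : ℝ) - m.2| < F / |b| := by
          rw [lt_div_iff₀ hbpos]; linarith
        obtain ⟨n, hn⟩ := Int.eq_ofNat_of_zero_le (a := z.2 - m.2) (by omega)
        have hn2 : (n : ℝ) ≤ F / |b| := by
          have : ((z.2 - m.2 : ℤ) : ℝ) = n := by rw [hn]; simp
          push_cast at this
          rw [← this]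
          exact (le_abs_self _).trans hlt2.le
        have := Nat.le_floor hn2
        omega
      · intro z hz w hw hzw
        have hzG := Finset.mem_filter.1 (Finset.mem_coe.1 hz)
        have hwG := Finset.mem_filter.1 (Finset.mem_coe.1 hw)
        exact Prod.ext (hzG.2.trans hwG.2.symm) hzw

theorem strip_card' {a b : ℝ} (ha : a ≠ 0) (c F : ℝ) (r : ℕ) (S : Finset Site)
    (hS : ∀ z ∈ S, z ∈ box 0 r ∧ c ≤ fn a b z ∧ fn a b z < c + F) :
    S.card ≤ (⌊F / |a|⌋₊ + 1) * (2 * r + 1) := by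
  classical
  have h := strip_card (a := b) (b := a) ha c F r (S.map (Equiv.prodComm ℤ ℤ).toEmbedding) (by
    intro z hz
    rw [Finset.mem_map] at hz
    obtain ⟨w, hw, rfl⟩ := hz
    have h1 := hS w hw
    rw [mem_box] at h1 ⊢
    unfold fn at h1 ⊢
    simp only [Equiv.coe_toEmbedding, Equiv.prodComm_apply, Prod.fst_swap, Prod.snd_swap,
      Prod.fst_zero, Prod.snd_zero] at h1 ⊢
    refine ⟨by omega, by linarith [h1.2.1], by linarith [h1.2.2]⟩)
  rwa [Finset.card_map] at h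

/-- The number of exits is at most linear in the time. -/
theorem exists_bound {a b : ℝ} (hab : a ≠ 0 ∨ b ≠ 0) (R : ℕ) :
    ∃ C : ℕ, 1 ≤ C ∧ ∀ t : ℕ, ∃ M : ℕ, 1 ≤ M ∧ 2 * ((|a| + |b|) * (R * t : ℕ)) < M ∧
      (disp a b R M).card ≤ C * (t + 1) := by
  have hkey : ∃ Q : ℕ, ∀ M : ℕ, (disp a b R M).card ≤ (Q + 1) * (2 * (R * M) + 1) := by
    rcases hab with ha | hb
    · exact ⟨_, fun M => strip_card' ha M ((|a| + |b|) * R) (R * M) _ fun z hz =>
        mem_disp.1 hz⟩
    · exact ⟨_, fun M => strip_card hb M ((|a| + |b|) * R) (R * M) _ fun z hz =>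
        mem_disp.1 hz⟩
  obtain ⟨Q, hQ⟩ := hkey
  obtain ⟨W, hW⟩ := exists_nat_gt (2 * ((|a| + |b|) * R))
  refine ⟨(Q + 1) * (2 * (R * (W + 1)) + 1), Nat.succ_le_of_lt (by positivity), fun t => ?_⟩
  refine ⟨(W + 1) * (t + 1), Nat.succ_le_of_lt (by positivity), ?_, ?_⟩
  · push_cast
    have h1 : 2 * ((|a| + |b|) * (R * (t : ℝ))) = (2 * ((|a| + |b|) * R)) * t := by ring
    rw [h1]
    have ht : (0 : ℝ) ≤ t := Nat.cast_nonneg t
    have hW0 : (0 : ℝ) ≤ W := Nat.cast_nonneg W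
    nlinarith
  · refine (hQ _).trans ?_
    have : 2 * (R * ((W + 1) * (t + 1))) + 1 ≤ (2 * (R * (W + 1)) + 1) * (t + 1) := by
      nlinarith [Nat.zero_le t, Nat.zero_le (R * (W + 1))]
    calc (Q + 1) * (2 * (R * ((W + 1) * (t + 1))) + 1)
        ≤ (Q + 1) * ((2 * (R * (W + 1)) + 1) * (t + 1)) := by gcongr
      _ = _ := by ring

end Pool.Agent.Q297.BC
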