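import Pool.Agent.Q297.BC.Count

/-!
# The critical point
-/

open MeasureTheory ProbabilityTheory Filter Topology
open scoped ENNReal

namespace Pool.Agent.Q297.BC

variable {U : Finset (Finset Site)} {X : Finset Site}

/-- The probability that the origin is healthy at time `t`. -/
noncomputable def tau (U : Finset (Finset Site)) (t : ℕ) (p : ℝ) : ℝ :=
  (law p {ω | (0 : Site) ∉ evo U t (ini ω)}).toReal

theorem continuous_tau (U : Finset (Finset Site)) (t : ℕ) : Continuous (tau U t) := by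
  obtain ⟨R, _, hR⟩ := exists_range U
  exact continuous_law (depOn_base hR t 0)

/-- Normalised functional for a rule in an open half plane. -/
theorem exists_functional (hne : X.Nonempty) {c s : ℝ}
    (h : ∀ y ∈ X, (y.1 : ℝ) * c + (y.2 : ℝ) * s < 0) :
    ∃ a b : ℝ, (a ≠ 0 ∨ b ≠ 0) ∧ ∀ y ∈ X, 1 ≤ fn a b y := by
  obtain ⟨m, hm, hmin⟩ := Finset.exists_min_image X (fun y => -((y.1 : ℝ) * c + (y.2 : ℝ) * s)) hne
  set δ := -((m.1 : ℝ) * c + (m.2 : ℝ) * s) with hδ
  have hδ0 : 0 < δ := by have := h m hm; linarith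
  refine ⟨-c / δ, -s / δ, ?_, ?_⟩
  · by_contra hcon
    push Not at hcon
    obtain ⟨h1, h2⟩ := hcon
    have hc : c = 0 := by
      rcases div_eq_zero_iff.1 h1 with h3 | h3
      · linarith
      · exact absurd h3 hδ0.ne'
    have hs : s = 0 := by
      rcases div_eq_zero_iff.1 h2 with h3 | h3
      · linarith
      · exact absurd h3 hδ0.ne'
    rw [hc, hs] at hδ
    simp at hδ
    linarith
  · intro y hy
    have h1 := hmin y hy
    unfold fn
    have h2 : -c / δ * (y.1 : ℝ) + -s / δ * y.2 = (-((y.1 : ℝ) * c + (y.2 : ℝ) * s)) / δ := by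
      field_simp; ring
    rw [h2, le_div_iff₀ hδ0]
    linarith

/-- The fundamental inequality: if the origin is healthy at time `t` with small probability then
there is percolation. -/
theorem exists_constant (hX : X ∈ U) (hne : X.Nonempty) {c s : ℝ}
    (h : ∀ y ∈ X, (y.1 : ℝ) * c + (y.2 : ℝ) * s < 0) :
    ∃ C : ℕ, 1 ≤ C ∧ ∀ (t : ℕ) (p : ℝ), tau U t p * (C * (t + 1)) < 1 →
      law p (perc U) = 1 := by
  obtain ⟨a, b, hab, hf⟩ := exists_functional hne h
  obtain ⟨R, _, hR⟩ := exists_range U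
  obtain ⟨C, hC1, hC⟩ := exists_bound hab R
  refine ⟨C, hC1, fun t p hlt => ?_⟩
  obtain ⟨M, hM1, hM2, hM3⟩ := hC t
  refine law_perc p hX hf hR t hM1 hM2 ?_
  have hfin : law p {ω | (0 : Site) ∉ evo U t (ini ω)} * ((disp a b R M).card : ℝ≥0∞) ≠ ∞ :=
    ENNReal.mul_ne_top (measure_ne_top _ _) (ENNReal.natCast_ne_top _)
  rw [← ENNReal.toReal_lt_toReal hfin ENNReal.one_ne_top, ENNReal.toReal_mul, ENNReal.toReal_one,
    ENNReal.toReal_natCast]
  refine lt_of_le_of_lt ?_ hlt
  have h1 : ((disp a b R M).card : ℝ) ≤ C * (t + 1) := by exact_mod_cast hM3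
  exact mul_le_mul_of_nonneg_left h1 ENNReal.toReal_nonneg

theorem coin_one : coin 1 = Measure.dirac true := by
  unfold coin
  rw [Set.projIcc_right]
  simp

theorem coin_zero : coin 0 = Measure.dirac false := by
  unfold coin
  rw [Set.projIcc_left]
  simp

theorem law_one : law 1 = Measure.dirac (fun _ => true) := by
  unfold law
  rw [show (fun _ : Site => coin 1) = fun _ => Measure.dirac true from funext fun _ => coin_one]
  exact Measure.infinitePi_dirac _

theorem law_zero : law 0 = Measure.dirac (fun _ => false) := by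
  unfold law
  rw [show (fun _ : Site => coin 0) = fun _ => Measure.dirac false from funext fun _ => coin_zero]
  exact Measure.infinitePi_dirac _

theorem evo_univ (U : Finset (Finset Site)) (t : ℕ) : evo U t Set.univ = Set.univ :=
  evo_eq_of_step_eq (Set.eq_univ_of_univ_subset (subset_step U _)) t

theorem evo_empty (hU : ∀ X ∈ U, X.Nonempty) (t : ℕ) : evo U t ∅ = ∅ := by
  refine evo_eq_of_step_eq (Set.eq_empty_of_forall_notMem ?_) t
  rintro x (hx | ⟨X, hX, hy⟩)
  · exact hx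
  · obtain ⟨y, hyX⟩ := hU X hX
    exact hy y hyX

theorem law_one_perc (U : Finset (Finset Site)) : law 1 (perc U) = 1 := by
  have hmem : (fun _ => true : Conf) ∈ perc U := by
    unfold perc clos
    simp only [Set.mem_ofPred_eq]
    have : ini (fun _ => true) = Set.univ := by ext x; simp [ini]
    rw [this]
    refine Set.eq_univ_of_forall fun x => Set.mem_iUnion.2 ⟨0, ?_⟩
    rw [evo_univ]; trivial
  rw [law_one]
  exact Measure.dirac_apply_of_mem hmem

theorem tau_zero (hU : ∀ X ∈ U, X.Nonempty) (t : ℕ) : tau U t 0 = 1 := by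
  unfold tau
  rw [law_zero, Measure.dirac_apply_of_mem]
  · simp
  · have : ini (fun _ => false) = ∅ := by ext x; simp [ini]
    simp only [Set.mem_ofPred_eq]
    rw [this, evo_empty hU]
    exact Set.notMem_empty _

theorem pc_set_nonempty (U : Finset (Finset Site)) :
    (1 : ℝ) ∈ {p : ℝ | 0 ≤ p ∧ p ≤ 1 ∧ law p (perc U) = 1} :=
  ⟨zero_le_one, le_rfl, law_one_perc U⟩

theorem pc_bdd (U : Finset (Finset Site)) :
    BddBelow {p : ℝ | 0 ≤ p ∧ p ≤ 1 ∧ law p (perc U) = 1} := ⟨0, fun _ h => h.1⟩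

theorem pc_nonneg (U : Finset (Finset Site)) : 0 ≤ pc U :=
  le_csInf ⟨1, pc_set_nonempty U⟩ fun _ h => h.1

theorem pc_le_one (U : Finset (Finset Site)) : pc U ≤ 1 := csInf_le (pc_bdd U) (pc_set_nonempty U)

theorem pc_le {p : ℝ} (h0 : 0 ≤ p) (h1 : p ≤ 1) (h : law p (perc U) = 1) : pc U ≤ p :=
  csInf_le (pc_bdd U) ⟨h0, h1, h⟩

/-- Lower bound for the occupation time at the critical point. -/
theorem tau_pc_ge (hU : ∀ X ∈ U, X.Nonempty) (hX : X ∈ U) {c s : ℝ}
    (h : ∀ y ∈ X, (y.1 : ℝ) * c + (y.2 : ℝ) * s < 0) :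
    ∃ C : ℕ, 1 ≤ C ∧ ∀ t : ℕ, 1 / ((C : ℝ) * (t + 1)) ≤ tau U t (pc U) := by
  obtain ⟨C, hC1, hC⟩ := exists_constant hX (hU X hX) h
  refine ⟨C, hC1, fun t => ?_⟩
  have hpos : (0 : ℝ) < C * (t + 1) := by
    have : (1 : ℝ) ≤ C := by exact_mod_cast hC1
    positivity
  rw [div_le_iff₀ hpos]
  by_contra hcon
  rw [not_le] at hcon
  rcases (pc_nonneg U).lt_or_eq with hpc | hpc
  · -- continuity
    have hc : Continuous fun p => tau U t p * (C * (t + 1)) := (continuous_tau U t).mul_const _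
    have hev : ∀ᶠ p in 𝓝 (pc U), tau U t p * (C * (t + 1)) < 1 :=
      hc.continuousAt.eventually_lt continuousAt_const hcon
    have hev2 : ∀ᶠ p in 𝓝[<] (pc U), tau U t p * (C * (t + 1)) < 1 ∧ 0 < p ∧ p < pc U := by
      refine (hev.filter_mono nhdsWithin_le_nhds).and ?_
      refine (Filter.Eventually.filter_mono nhdsWithin_le_nhds (lt_mem_nhds hpc)).and ?_
      exact self_mem_nhdsWithin
    obtain ⟨p, hp1, hp2, hp3⟩ := hev2.exists
    have := pc_le hp2.le (hp3.le.trans (pc_le_one U)) (hC t p hp1)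
    linarith
  · rw [← hpc, tau_zero hU] at hcon
    have h1 : (1 : ℝ) ≤ C := by exact_mod_cast hC1
    have h2 : (0 : ℝ) ≤ t := Nat.cast_nonneg t
    nlinarith

theorem tau_init (p : ℝ) : tau U 0 p = 1 - (Set.projIcc (0 : ℝ) 1 zero_le_one p : ℝ) := by
  have h1 : {ω : Conf | (0 : Site) ∉ evo U 0 (ini ω)} = (fun ω : Conf => ω 0) ⁻¹' {false} := by
    ext ω
    simp [evo_zero, ini]
  unfold tau
  rw [h1, ← Measure.map_apply (measurable_pi_apply _) (measurableSet_singleton _)]
  unfold law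
  rw [Measure.infinitePi_map_eval, coin_real]
  simp [wt]

/-- The critical probability is smaller than one. -/
theorem pc_lt_one (hU : ∀ X ∈ U, X.Nonempty) (hX : X ∈ U) {c s : ℝ}
    (h : ∀ y ∈ X, (y.1 : ℝ) * c + (y.2 : ℝ) * s < 0) : pc U < 1 := by
  obtain ⟨C, hC1, hC⟩ := exists_constant hX (hU X hX) h
  have hC1' : (1 : ℝ) ≤ C := by exact_mod_cast hC1
  have h0 : (0 : ℝ) ≤ 1 - 1 / (2 * C) := by
    rw [sub_nonneg, div_le_one (by positivity)]; linarith
  have h1 : 1 - 1 / (2 * (C : ℝ)) < 1 := by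
    have : (0 : ℝ) < 1 / (2 * C) := by positivity
    linarith
  refine lt_of_le_of_lt (pc_le h0 h1.le (hC 0 _ ?_)) h1
  rw [tau_init, Set.projIcc_of_mem zero_le_one ⟨h0, h1.le⟩]
  push_cast
  have : (1 - (1 - 1 / (2 * (C : ℝ)))) * (C * (0 + 1)) = 1 / 2 := by field_simp; ring
  rw [this]; norm_num

/-! ### The mean occupation time -/

theorem sum_le_T (U : Finset (Finset Site)) (N : ℕ) (ω : Conf) :
    ∑ t ∈ Finset.range N, Set.indicator {ω | (0 : Site) ∉ evo U t (ini ω)} (fun _ => (1 : ℝ≥0∞)) ω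
      ≤ T U ω := by
  classical
  unfold T
  refine le_iInf₂ fun m hm => ?_
  have h1 : ∀ t ∈ Finset.range N,
      Set.indicator {ω | (0 : Site) ∉ evo U t (ini ω)} (fun _ => (1 : ℝ≥0∞)) ω ≤
        if t < m then 1 else 0 := by
    intro t _
    by_cases htm : t < m
    · rw [if_pos htm]
      exact Set.indicator_le_self' (fun _ _ => zero_le_one) ω |>.trans le_rfl
    · rw [if_neg htm, Set.indicator_of_notMem]
      simp only [Set.mem_ofPred_eq, not_not]
      exact evo_mono U _ (not_lt.1 htm) hm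
  refine (Finset.sum_le_sum h1).trans ?_
  rw [← Finset.sum_filter, Finset.sum_const, nsmul_eq_mul, mul_one]
  have : ((Finset.range N).filter (fun t => t < m)).card ≤ m := by
    calc _ ≤ (Finset.range m).card := Finset.card_le_card fun t ht => by
          simp only [Finset.mem_filter] at ht; exact Finset.mem_range.2 ht.2
      _ = m := Finset.card_range m
  exact_mod_cast this

theorem lintegral_T_ge (U : Finset (Finset Site)) (p : ℝ) (N : ℕ) :
    ENNReal.ofReal (∑ t ∈ Finset.range N, tau U t p) ≤ ∫⁻ ω, T U ω ∂(law p) := by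
  obtain ⟨R, _, hR⟩ := exists_range U
  have hm : ∀ t, MeasurableSet {ω : Conf | (0 : Site) ∉ evo U t (ini ω)} := fun t =>
    (depOn_base hR t 0).measurable
  calc ENNReal.ofReal (∑ t ∈ Finset.range N, tau U t p)
      = ∑ t ∈ Finset.range N, law p {ω | (0 : Site) ∉ evo U t (ini ω)} := by
        unfold tau
        rw [ENNReal.ofReal_sum_of_nonneg fun t _ => ENNReal.toReal_nonneg]
        refine Finset.sum_congr rfl fun t _ => ?_
        rw [ENNReal.ofReal_toReal (measure_ne_top _ _)]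
    _ = ∑ t ∈ Finset.range N, ∫⁻ ω, Set.indicator {ω | (0 : Site) ∉ evo U t (ini ω)}
          (fun _ => (1 : ℝ≥0∞)) ω ∂(law p) := by
        refine Finset.sum_congr rfl fun t _ => ?_
        rw [lintegral_indicator (hm t)]; simp
    _ = ∫⁻ ω, ∑ t ∈ Finset.range N, Set.indicator {ω | (0 : Site) ∉ evo U t (ini ω)}
          (fun _ => (1 : ℝ≥0∞)) ω ∂(law p) := by
        rw [lintegral_finsetSum]
        intro t _
        exact measurable_const.indicator (hm t)
    _ ≤ ∫⁻ ω, T U ω ∂(law p) := lintegral_mono fun ω => sum_le_T U N ω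

/-- Infinite mean occupation time at the critical point. -/
theorem mean_T_pc (hU : ∀ X ∈ U, X.Nonempty) (hX : X ∈ U) {c s : ℝ}
    (h : ∀ y ∈ X, (y.1 : ℝ) * c + (y.2 : ℝ) * s < 0) : ∫⁻ ω, T U ω ∂(law (pc U)) = ∞ := by
  obtain ⟨C, hC1, hC⟩ := tau_pc_ge hU hX h
  have hC1' : (1 : ℝ) ≤ C := by exact_mod_cast hC1
  have h1 : Tendsto (fun N : ℕ => ∑ t ∈ Finset.range N, tau U t (pc U)) atTop atTop := by
    have h2 : Tendsto (fun N : ℕ => ∑ t ∈ Finset.range N, (1 / ((t : ℝ) + 1))) atTop atTop :=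
      Real.tendsto_sum_range_one_div_nat_succ_atTop
    have h3 : Tendsto (fun N : ℕ => (1 / (C : ℝ)) * ∑ t ∈ Finset.range N, (1 / ((t : ℝ) + 1)))
        atTop atTop := h2.const_mul_atTop (by positivity)
    refine tendsto_atTop_mono (fun N => ?_) h3
    rw [Finset.mul_sum]
    refine Finset.sum_le_sum fun t _ => ?_
    refine le_trans (le_of_eq ?_) (hC t)
    rw [one_div_mul_one_div]
  rw [eq_top_iff]
  have h2 := ENNReal.tendsto_ofReal_atTop.comp h1
  exact le_of_tendsto' h2 fun N => lintegral_T_ge U (pc U) N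

end Pool.Agent.Q297.BC
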