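import Mathlib

/-!
# Two-dimensional bootstrap percolation with a general update family: definitions
-/

open MeasureTheory ProbabilityTheory Filter Topology
open scoped ENNReal

namespace Pool.Agent.Q297.BC

/-- Sites of the square lattice. -/
abbrev Site := ℤ × ℤ

/-- Initial configurations; `ω x = true` means `x ∈ A`. -/
abbrev Conf := Site → Bool

/-- The set `A` of the configuration. -/
def ini (ω : Conf) : Set Site := {x | ω x = true}

/-- One step of the bootstrap dynamics with update family `U`. -/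
def step (U : Finset (Finset Site)) (A : Set Site) : Set Site :=
  A ∪ {x | ∃ X ∈ U, ∀ y ∈ X, x + y ∈ A}

/-- The set `A_t`. -/
def evo (U : Finset (Finset Site)) (t : ℕ) (A : Set Site) : Set Site := (step U)^[t] A

/-- The closure `[A]`. -/
def clos (U : Finset (Finset Site)) (A : Set Site) : Set Site := ⋃ t : ℕ, evo U t A

/-- The open half plane `⟨x, u⟩ < 0` for the direction `u = (cos θ, sin θ)`. -/
def halfPlane (θ : ℝ) : Set Site := {x | (x.1 : ℝ) * Real.cos θ + (x.2 : ℝ) * Real.sin θ < 0}

/-- Angles of the stable directions. -/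
def stableAngles (U : Finset (Finset Site)) : Set ℝ := {θ | clos U (halfPlane θ) = halfPlane θ}

/-- Subcritical families: the stable set meets every open semicircle in a set of positive
length. -/
def Subcritical (U : Finset (Finset Site)) : Prop :=
  ∀ φ : ℝ, 0 < volume (stableAngles U ∩ Set.Ioo φ (φ + Real.pi))

/-- The Bernoulli law of one site with parameter `p` (for `0 ≤ p ≤ 1`; other values of `p` are
clamped to the interval `[0, 1]`). -/
noncomputable def coin (p : ℝ) : Measure Bool :=
  ENNReal.ofReal (Set.projIcc (0 : ℝ) 1 zero_le_one p : ℝ) • Measure.dirac true +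
    ENNReal.ofReal (1 - (Set.projIcc (0 : ℝ) 1 zero_le_one p : ℝ)) • Measure.dirac false

instance (p : ℝ) : IsProbabilityMeasure (coin p) := by
  constructor
  have h := (Set.projIcc (0 : ℝ) 1 zero_le_one p).2
  rw [coin]
  simp only [Measure.coe_add, Measure.coe_smul, Pi.add_apply, Pi.smul_apply, measure_univ,
    smul_eq_mul, mul_one]
  rw [← ENNReal.ofReal_add h.1 (by linarith [h.2])]
  norm_num

/-- The law `ℙ_p`. -/
noncomputable def law (p : ℝ) : Measure Conf := Measure.infinitePi fun _ => coin p

instance (p : ℝ) : IsProbabilityMeasure (law p) := by unfold law; infer_instance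

/-- The event `[A] = ℤ²`. -/
def perc (U : Finset (Finset Site)) : Set Conf := {ω | clos U (ini ω) = Set.univ}

/-- The critical probability. -/
noncomputable def pc (U : Finset (Finset Site)) : ℝ :=
  sInf {p : ℝ | 0 ≤ p ∧ p ≤ 1 ∧ law p (perc U) = 1}

/-- The occupation time of the origin. -/
noncomputable def T (U : Finset (Finset Site)) (ω : Conf) : ℝ≥0∞ :=
  ⨅ (t : ℕ) (_ : (0 : Site) ∈ evo U t (ini ω)), (t : ℝ≥0∞)

/-! ### Basic properties of the dynamics -/

theorem evo_zero (U : Finset (Finset Site)) (A : Set Site) : evo U 0 A = A := rfl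

theorem evo_succ (U : Finset (Finset Site)) (t : ℕ) (A : Set Site) :
    evo U (t + 1) A = step U (evo U t A) := by
  unfold evo; rw [Function.iterate_succ_apply']

theorem subset_step (U : Finset (Finset Site)) (A : Set Site) : A ⊆ step U A :=
  Set.subset_union_left

theorem evo_mono (U : Finset (Finset Site)) (A : Set Site) : Monotone (fun t => evo U t A) := by
  refine monotone_nat_of_le_succ fun t => ?_
  rw [evo_succ]; exact subset_step U _

/-- The box of radius `r` around `z`. -/
noncomputable def box (z : Site) (r : ℕ) : Finset Site :=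
  Finset.Icc (z.1 - r) (z.1 + r) ×ˢ Finset.Icc (z.2 - r) (z.2 + r)

theorem mem_box {z x : Site} {r : ℕ} :
    x ∈ box z r ↔ z.1 - r ≤ x.1 ∧ x.1 ≤ z.1 + r ∧ z.2 - r ≤ x.2 ∧ x.2 ≤ z.2 + r := by
  unfold box; rw [Finset.mem_product, Finset.mem_Icc, Finset.mem_Icc]; tauto

/-- `R` bounds the range of the family. -/
def Range (U : Finset (Finset Site)) (R : ℕ) : Prop :=
  ∀ X ∈ U, ∀ y ∈ X, -(R : ℤ) ≤ y.1 ∧ y.1 ≤ R ∧ -(R : ℤ) ≤ y.2 ∧ y.2 ≤ R

theorem exists_range (U : Finset (Finset Site)) : ∃ R : ℕ, 1 ≤ R ∧ Range U R := by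
  classical
  refine ⟨(U.biUnion id).sup (fun y => y.1.natAbs + y.2.natAbs) + 1, by omega, ?_⟩
  intro X hX y hy
  have hmem : y ∈ U.biUnion id := Finset.mem_biUnion.2 ⟨X, hX, hy⟩
  have h := Finset.le_sup (f := fun y : Site => y.1.natAbs + y.2.natAbs) hmem
  have h' : y.1.natAbs + y.2.natAbs ≤ (U.biUnion id).sup (fun y => y.1.natAbs + y.2.natAbs) := h
  omega

theorem evo_local {U : Finset (Finset Site)} {R : ℕ} (hR : Range U R) (t : ℕ) :
    ∀ (z : Site) (A B : Set Site), (∀ x ∈ box z (R * t), x ∈ A ↔ x ∈ B) →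
      (z ∈ evo U t A ↔ z ∈ evo U t B) := by
  induction t with
  | zero =>
    intro z A B h
    exact h z (by rw [mem_box]; simp)
  | succ t ih =>
    intro z A B h
    rw [evo_succ, evo_succ]
    have hsub : ∀ w : Site, (-(R : ℤ) ≤ w.1 ∧ w.1 ≤ R ∧ -(R : ℤ) ≤ w.2 ∧ w.2 ≤ R) →
        (z + w ∈ evo U t A ↔ z + w ∈ evo U t B) := by
      intro w hw
      refine ih (z + w) A B fun x hx => h x ?_
      rw [mem_box] at hx ⊢
      simp only [Prod.fst_add, Prod.snd_add] at hx
      push_cast at hx ⊢
      have : (R : ℤ) * (t + 1) = R * t + R := by ring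
      omega
    have h0 : z ∈ evo U t A ↔ z ∈ evo U t B := by
      have := hsub 0 (by simp)
      simpa using this
    unfold step
    simp only [Set.mem_union, Set.mem_ofPred_eq]
    constructor
    · rintro (h1 | ⟨X, hX, hy⟩)
      · exact Or.inl (h0.1 h1)
      · exact Or.inr ⟨X, hX, fun y hyX => (hsub y (hR X hX y hyX)).1 (hy y hyX)⟩
    · rintro (h1 | ⟨X, hX, hy⟩)
      · exact Or.inl (h0.2 h1)
      · exact Or.inr ⟨X, hX, fun y hyX => (hsub y (hR X hX y hyX)).2 (hy y hyX)⟩

theorem evo_shift (U : Finset (Finset Site)) (a : Site) (t : ℕ) :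
    ∀ (A : Set Site) (z : Site), z ∈ evo U t {x | x + a ∈ A} ↔ z + a ∈ evo U t A := by
  induction t with
  | zero => intro A z; exact Iff.rfl
  | succ t ih =>
    intro A z
    rw [evo_succ, evo_succ]
    unfold step
    simp only [Set.mem_union, Set.mem_ofPred_eq, ih]
    have : ∀ y : Site, z + y + a = z + a + y := fun y => by ring
    simp only [this]

/-- A healthy site has a healthy neighbour in the direction of every rule. -/
theorem healthy_step {U : Finset (Finset Site)} {X : Finset Site} (hX : X ∈ U) {A : Set Site}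
    {t : ℕ} {z : Site} (h : z ∉ evo U (t + 1) A) : ∃ y ∈ X, z + y ∉ evo U t A := by
  by_contra hcon
  push Not at hcon
  apply h
  rw [evo_succ]
  exact Or.inr ⟨X, hX, hcon⟩

theorem not_evo_of_le {U : Finset (Finset Site)} {A : Set Site} {s t : ℕ} (hst : s ≤ t)
    {z : Site} (h : z ∉ evo U t A) : z ∉ evo U s A := fun h' => h (evo_mono U A hst h')

/-! ### Stable directions -/

theorem evo_eq_of_step_eq {U : Finset (Finset Site)} {A : Set Site} (h : step U A = A) (t : ℕ) :
    evo U t A = A := by
  induction t with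
  | zero => rfl
  | succ t ih => rw [evo_succ, ih, h]

/-- If the direction is not stable then some rule lies in the open half plane. -/
theorem exists_rule {U : Finset (Finset Site)} {θ : ℝ} (h : θ ∉ stableAngles U) :
    ∃ X ∈ U, ∀ y ∈ X, (y.1 : ℝ) * Real.cos θ + (y.2 : ℝ) * Real.sin θ < 0 := by
  by_contra hcon
  push Not at hcon
  apply h
  have hstep : step U (halfPlane θ) = halfPlane θ := by
    apply Set.Subset.antisymm _ (subset_step U _)
    rintro x (hx | ⟨X, hX, hy⟩)
    · exact hx
    · obtain ⟨y, hyX, hge⟩ := hcon X hX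
      have h1 := hy y hyX
      unfold halfPlane at h1 ⊢
      simp only [Set.mem_ofPred_eq, Prod.fst_add, Prod.snd_add] at h1 ⊢
      push_cast at h1
      nlinarith
  unfold stableAngles clos
  simp only [Set.mem_ofPred_eq]
  ext x
  simp only [Set.mem_iUnion, evo_eq_of_step_eq hstep]
  exact ⟨fun ⟨_, h⟩ => h, fun h => ⟨0, h⟩⟩

/-- If a rule lies in an open half plane then the direction is not stable. -/
theorem not_stable_of_rule {U : Finset (Finset Site)} {θ : ℝ} {X : Finset Site} (hX : X ∈ U)
    (h : ∀ y ∈ X, (y.1 : ℝ) * Real.cos θ + (y.2 : ℝ) * Real.sin θ < 0) :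
    θ ∉ stableAngles U := by
  intro hs
  unfold stableAngles clos at hs
  simp only [Set.mem_ofPred_eq] at hs
  have h1 : (0 : Site) ∈ ⋃ t : ℕ, evo U t (halfPlane θ) := by
    rw [Set.mem_iUnion]
    refine ⟨1, ?_⟩
    rw [show (1 : ℕ) = 0 + 1 from rfl, evo_succ, evo_zero]
    refine Or.inr ⟨X, hX, fun y hy => ?_⟩
    unfold halfPlane
    simpa using h y hy
  rw [hs] at h1
  unfold halfPlane at h1
  simp at h1

end Pool.Agent.Q297.BC
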