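import Pool.Agent.Q297.BC.Island

/-!
# The gap in the decay rates of the occupation time
-/

open MeasureTheory ProbabilityTheory Filter Topology
open scoped ENNReal

namespace Pool.Agent.Q297.BC

variable {U : Finset (Finset Site)} {X : Finset Site} {a b : ℝ} {R : ℕ}

theorem law_tail (p : ℝ) (hX : X ∈ U) (hf : ∀ y ∈ X, 1 ≤ fn a b y) (hR : Range U R) (t : ℕ)
    {M : ℕ} (hM1 : 1 ≤ M) (hM : 2 * ((|a| + |b|) * (R * t : ℕ)) < M) (k : ℕ) :
    tau U (t + k * M) p ≤ (tau U t p * (disp a b R M).card) ^ k := by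
  have h1 : law p {ω | (0 : Site) ∉ evo U (t + k * M) (ini ω)} ≤
      (law p {ω | (0 : Site) ∉ evo U t (ini ω)} * (disp a b R M).card) ^ k :=
    (measure_mono fun ω hω => healthy_Bad hX hf hR hM1 t k 0 ω hω).trans
      (law_Bad_le p hR t hM k 0)
  have hfin : (law p {ω | (0 : Site) ∉ evo U t (ini ω)} * ((disp a b R M).card : ℝ≥0∞)) ^ k ≠ ∞ :=
    ENNReal.pow_ne_top (ENNReal.mul_ne_top (measure_ne_top _ _) (ENNReal.natCast_ne_top _))
  have h2 := ENNReal.toReal_mono hfin h1
  rw [ENNReal.toReal_pow, ENNReal.toReal_mul, ENNReal.toReal_natCast] at h2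
  exact h2

theorem tau_le_one (U : Finset (Finset Site)) (t : ℕ) (p : ℝ) : tau U t p ≤ 1 := by
  unfold tau
  exact ENNReal.toReal_le_of_le_ofReal zero_le_one (by rw [ENNReal.ofReal_one]; exact prob_le_one)

theorem tau_nonneg (U : Finset (Finset Site)) (t : ℕ) (p : ℝ) : 0 ≤ tau U t p :=
  ENNReal.toReal_nonneg

theorem tau_anti (U : Finset (Finset Site)) (p : ℝ) {s t : ℕ} (h : s ≤ t) :
    tau U t p ≤ tau U s p := by
  unfold tau
  exact ENNReal.toReal_mono (measure_ne_top _ _) (measure_mono fun ω hω => not_evo_of_le h hω)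

theorem exp_decay {p : ℝ} {t M : ℕ} (hM : 1 ≤ M) {q : ℝ} (hq0 : 0 ≤ q) (hq1 : q < 1)
    (h : ∀ k, tau U (t + k * M) p ≤ q ^ k) :
    ∃ K r : ℝ, 0 < r ∧ ∀ n : ℕ, tau U n p ≤ K * Real.exp (-r * n) := by
  set q' := max q (1 / 2) with hq'
  have hq'0 : 0 < q' := lt_of_lt_of_le (by norm_num) (le_max_right _ _)
  have hq'1 : q' < 1 := max_lt hq1 (by norm_num)
  have hMpos : (0 : ℝ) < M := by exact_mod_cast hM
  have hlog : Real.log q' < 0 := Real.log_neg hq'0 hq'1
  refine ⟨Real.exp ((-Real.log q' / M) * (t + M)), -Real.log q' / M,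
    div_pos (neg_pos.2 hlog) hMpos, fun n => ?_⟩
  rw [← Real.exp_add]
  have hr : 0 < -Real.log q' / M := div_pos (neg_pos.2 hlog) hMpos
  have hrM : -Real.log q' / M * M = -Real.log q' := by field_simp
  by_cases hn : n < t
  · refine (tau_le_one U n p).trans (Real.one_le_exp ?_)
    have : (n : ℝ) ≤ t := by exact_mod_cast hn.le
    nlinarith
  · rw [not_lt] at hn
    set k := (n - t) / M with hk
    have h1 : t + k * M ≤ n := by
      have := Nat.div_mul_le_self (n - t) M
      rw [← hk] at this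
      omega
    have h2 : n < t + (k + 1) * M := by
      have := Nat.lt_div_mul_add (a := n - t) (b := M) (by omega)
      rw [← hk] at this
      rw [add_mul, one_mul]; omega
    refine (tau_anti U p h1).trans ((h k).trans ?_)
    have h3 : q ^ k ≤ q' ^ k := pow_le_pow_left₀ hq0 (le_max_left _ _) k
    refine h3.trans ?_
    have h4 : q' ^ k = Real.exp (Real.log q' * k) := by
      rw [mul_comm, Real.exp_nat_mul, Real.exp_log hq'0]
    rw [h4, Real.exp_le_exp]
    have h5 : (n : ℝ) ≤ t + (k + 1) * M := by exact_mod_cast h2.le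
    have h6 : (-Real.log q' / M) * n ≤ (-Real.log q' / M) * (t + (k + 1) * M) :=
      mul_le_mul_of_nonneg_left h5 hr.le
    have h7 : (-Real.log q' / M) * ((k + 1) * M) = (k + 1) * (-Real.log q') := by
      rw [mul_comm _ ((k + 1) * (M : ℝ)), mul_assoc, mul_comm (M : ℝ), hrM]
    have h8 : (-Real.log q' / M) * (t + (k + 1) * M) =
        (-Real.log q' / M) * t + (k + 1) * (-Real.log q') := by rw [mul_add, h7]
    have h9 : (-Real.log q' / M) * (t + M) = (-Real.log q' / M) * t + -Real.log q' := by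
      rw [mul_add, hrM]
    rw [h8] at h6
    rw [h9]
    linarith

/-- All the information on one rule in an open half plane. -/
theorem gap (hU : ∀ X ∈ U, X.Nonempty) (hX : X ∈ U) {c s : ℝ}
    (h : ∀ y ∈ X, (y.1 : ℝ) * c + (y.2 : ℝ) * s < 0) :
    ∃ C : ℕ, 1 ≤ C ∧
      (∀ (t : ℕ) (p : ℝ), tau U t p * (C * (t + 1)) < 1 →
        law p (perc U) = 1 ∧ ∃ K r : ℝ, 0 < r ∧ ∀ n : ℕ, tau U n p ≤ K * Real.exp (-r * n)) := by
  obtain ⟨a, b, hab, hf⟩ := exists_functional (hU X hX) h
  obtain ⟨R, _, hR⟩ := exists_range U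
  obtain ⟨C, hC1, hC⟩ := exists_bound hab R
  refine ⟨C, hC1, fun t p hlt => ?_⟩
  obtain ⟨M, hM1, hM2, hM3⟩ := hC t
  have h1 : ((disp a b R M).card : ℝ) ≤ C * (t + 1) := by exact_mod_cast hM3
  have h2 : tau U t p * (disp a b R M).card < 1 :=
    lt_of_le_of_lt (mul_le_mul_of_nonneg_left h1 (tau_nonneg U t p)) hlt
  constructor
  · refine law_perc p hX hf hR t hM1 hM2 ?_
    have hfin : law p {ω | (0 : Site) ∉ evo U t (ini ω)} * ((disp a b R M).card : ℝ≥0∞) ≠ ∞ :=
      ENNReal.mul_ne_top (measure_ne_top _ _) (ENNReal.natCast_ne_top _)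
    rw [← ENNReal.toReal_lt_toReal hfin ENNReal.one_ne_top, ENNReal.toReal_mul,
      ENNReal.toReal_one, ENNReal.toReal_natCast]
    exact h2
  · exact exp_decay hM1 (mul_nonneg (tau_nonneg U t p) (Nat.cast_nonneg _)) h2
      (law_tail p hX hf hR t hM1 hM2)

/-- A subcritical family has no empty rule. -/
theorem Subcritical.nonempty (h : Subcritical U) : ∀ X ∈ U, X.Nonempty := by
  intro X hX
  rcases X.eq_empty_or_nonempty with he | hne
  · exfalso
    have h1 := h 0
    have h2 : stableAngles U ∩ Set.Ioo 0 (0 + Real.pi) = ∅ := by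
      refine Set.eq_empty_of_forall_notMem fun θ hθ => ?_
      exact not_stable_of_rule (θ := θ) hX (by rw [he]; simp) hθ.1
    rw [h2, measure_empty] at h1
    exact lt_irrefl _ h1
  · exact hne

end Pool.Agent.Q297.BC
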