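import Pool.Agent.Q297.BC.Crit

/-!
# Stable islands when all directions are stable
-/

open MeasureTheory ProbabilityTheory Filter Topology
open scoped ENNReal

namespace Pool.Agent.Q297.BC

variable {U : Finset (Finset Site)} {X : Finset Site}

/-- The embedding of the lattice in the plane. -/
def emb : Site ↪ ℝ × ℝ :=
  ⟨fun z => ((z.1 : ℝ), (z.2 : ℝ)), fun z w h => by
    simp only [Prod.mk.injEq, Int.cast_inj] at h
    exact Prod.ext h.1 h.2⟩

/-- If every direction is stable then every rule has the origin in its convex hull. -/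
theorem weights (hall : ∀ θ, θ ∈ stableAngles U) (hX : X ∈ U) :
    ∃ l : Site → ℝ, (∀ y ∈ X, 0 ≤ l y) ∧ ∑ y ∈ X, l y = 1 ∧
      ∑ y ∈ X, l y * (y.1 : ℝ) = 0 ∧ ∑ y ∈ X, l y * (y.2 : ℝ) = 0 := by
  have h0 : (0 : ℝ × ℝ) ∈ convexHull ℝ ((X.map emb : Finset (ℝ × ℝ)) : Set (ℝ × ℝ)) := by
    by_contra hcon
    have hcl : IsClosed (convexHull ℝ ((X.map emb : Finset (ℝ × ℝ)) : Set (ℝ × ℝ))) :=
      ((Finset.finite_toSet (X.map emb)).isCompact_convexHull ℝ).isClosed
    obtain ⟨f, u, hu, hf⟩ := geometric_hahn_banach_point_closed (convex_convexHull ℝ _) hcl hcon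
    rw [map_zero] at hu
    set a := f (1, 0) with ha
    set b := f (0, 1) with hb
    have hfy : ∀ y ∈ X, 0 < a * (y.1 : ℝ) + b * (y.2 : ℝ) := by
      intro y hy
      have h1 := hf (emb y) (subset_convexHull ℝ _ (by simpa using hy))
      have h2 : f (emb y) = a * (y.1 : ℝ) + b * (y.2 : ℝ) := by
        have e : emb y = (y.1 : ℝ) • ((1 : ℝ), (0 : ℝ)) + (y.2 : ℝ) • ((0 : ℝ), (1 : ℝ)) := by
          simp [emb]
        rw [e, map_add, map_smul, map_smul, smul_eq_mul, smul_eq_mul, ha, hb]
        ring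
      rw [h2] at h1
      linarith
    rcases X.eq_empty_or_nonempty with hemp | hne
    · exact not_stable_of_rule (θ := 0) hX (by rw [hemp]; simp) (hall 0)
    · set z : ℂ := ⟨-a, -b⟩ with hz
      have hz0 : z ≠ 0 := by
        intro h
        obtain ⟨y, hy⟩ := hne
        have h1 := hfy y hy
        have e1 : a = 0 := by have := congrArg Complex.re h; simp [hz] at this; exact this
        have e2 : b = 0 := by have := congrArg Complex.im h; simp [hz] at this; exact this
        rw [e1, e2] at h1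
        simp at h1
      have hn : 0 < ‖z‖ := norm_pos_iff.2 hz0
      refine not_stable_of_rule (θ := Complex.arg z) hX ?_ (hall _)
      intro y hy
      rw [Complex.cos_arg hz0, Complex.sin_arg]
      have e : (y.1 : ℝ) * (z.re / ‖z‖) + (y.2 : ℝ) * (z.im / ‖z‖) =
          -(a * (y.1 : ℝ) + b * (y.2 : ℝ)) / ‖z‖ := by
        rw [hz]; field_simp; ring
      rw [e]
      exact div_neg_of_neg_of_pos (by linarith [hfy y hy]) hn
  rw [Finset.mem_convexHull'] at h0
  obtain ⟨w, hw0, hw1, hw2⟩ := h0
  rw [Finset.sum_map] at hw1 hw2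
  refine ⟨fun y => w (emb y), fun y hy => hw0 _ (Finset.mem_map_of_mem _ hy), hw1, ?_, ?_⟩
  · have := congrArg Prod.fst hw2
    simpa [Prod.fst_sum, emb] using this
  · have := congrArg Prod.snd hw2
    simpa [Prod.snd_sum, emb] using this

/-- All the vectors of the family. -/
noncomputable def vecs (U : Finset (Finset Site)) : Finset Site := by
  classical exact U.biUnion id

theorem mem_vecs {y : Site} : y ∈ vecs U ↔ ∃ X ∈ U, y ∈ X := by
  unfold vecs; simp

/-- The lattice points of a zonotope. -/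
def Zono (U : Finset (Finset Site)) : Set Site :=
  {x | ∃ s : Site → ℝ, (∀ y ∈ vecs U, 0 ≤ s y ∧ s y ≤ 2) ∧
    ∑ y ∈ vecs U, s y * (y.1 : ℝ) = x.1 ∧ ∑ y ∈ vecs U, s y * (y.2 : ℝ) = x.2}

theorem zero_mem_Zono (U : Finset (Finset Site)) : (0 : Site) ∈ Zono U :=
  ⟨fun _ => 0, fun _ _ => ⟨le_rfl, by norm_num⟩, by simp, by simp⟩

theorem Zono_finite (U : Finset (Finset Site)) : (Zono U).Finite := by
  obtain ⟨n, hn⟩ := exists_nat_gt (∑ y ∈ vecs U, 2 * (|(y.1 : ℝ)| + |(y.2 : ℝ)|))
  refine (Finset.finite_toSet (box 0 n)).subset ?_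
  rintro x ⟨s, hs, h1, h2⟩
  have e1 : |(x.1 : ℝ)| ≤ ∑ y ∈ vecs U, 2 * (|(y.1 : ℝ)| + |(y.2 : ℝ)|) := by
    rw [← h1]
    refine (Finset.abs_sum_le_sum_abs _ _).trans (Finset.sum_le_sum fun y hy => ?_)
    rw [abs_mul, abs_of_nonneg (hs y hy).1]
    have := (hs y hy).2
    have h3 := abs_nonneg (y.1 : ℝ)
    have h4 := abs_nonneg (y.2 : ℝ)
    nlinarith
  have e2 : |(x.2 : ℝ)| ≤ ∑ y ∈ vecs U, 2 * (|(y.1 : ℝ)| + |(y.2 : ℝ)|) := by
    rw [← h2]
    refine (Finset.abs_sum_le_sum_abs _ _).trans (Finset.sum_le_sum fun y hy => ?_)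
    rw [abs_mul, abs_of_nonneg (hs y hy).1]
    have := (hs y hy).2
    have h3 := abs_nonneg (y.1 : ℝ)
    have h4 := abs_nonneg (y.2 : ℝ)
    nlinarith
  have f1 : |(x.1 : ℝ)| < n := lt_of_le_of_lt e1 hn
  have f2 : |(x.2 : ℝ)| < n := lt_of_le_of_lt e2 hn
  have g1 : |x.1| < (n : ℤ) := by exact_mod_cast f1
  have g2 : |x.2| < (n : ℤ) := by exact_mod_cast f2
  rw [abs_lt] at g1 g2
  rw [Finset.mem_coe, mem_box]
  simp only [Prod.fst_zero, Prod.snd_zero]
  omega

theorem Zono_step (hall : ∀ θ, θ ∈ stableAngles U) (hX : X ∈ U) {x : Site} (hx : x ∈ Zono U) :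
    ∃ y ∈ X, x + y ∈ Zono U := by
  classical
  obtain ⟨l, hl0, hl1, hla, hlb⟩ := weights hall hX
  obtain ⟨s, hs, h1, h2⟩ := hx
  have hXsub : X ⊆ vecs U := fun y hy => mem_vecs.2 ⟨X, hX, hy⟩
  by_cases hcase : ∃ y ∈ X, s y ≤ 1
  · obtain ⟨y, hy, hsy⟩ := hcase
    refine ⟨y, hy, fun v => s v + (if v = y then 1 else 0), ?_, ?_, ?_⟩
    · intro v hv
      have := hs v hv
      by_cases hvy : v = y
      · subst hvy; simp only [if_true]; constructor <;> linarith
      · simp only [if_neg hvy, add_zero]; exact this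
    · simp only [add_mul, Finset.sum_add_distrib, ite_mul, one_mul, zero_mul]
      rw [h1, Finset.sum_ite_eq' , if_pos (hXsub hy)]
      simp
    · simp only [add_mul, Finset.sum_add_distrib, ite_mul, one_mul, zero_mul]
      rw [h2, Finset.sum_ite_eq' , if_pos (hXsub hy)]
      simp
  · push Not at hcase
    have hne : X.Nonempty := by
      rcases X.eq_empty_or_nonempty with h | h
      · rw [h] at hl1; simp at hl1
      · exact h
    obtain ⟨m, hm, hmax⟩ := Finset.exists_max_image X l hne
    have hm0 : 0 < l m := by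
      by_contra hcon
      rw [not_lt] at hcon
      have : ∑ y ∈ X, l y ≤ 0 := Finset.sum_nonpos fun y hy => (hmax y hy).trans hcon
      linarith
    have hsumX : ∀ g : Site → ℝ, ∑ v ∈ vecs U, (if v ∈ X then l v / l m else 0) * g v =
        (∑ v ∈ X, l v * g v) / l m := by
      intro g
      simp only [ite_mul, zero_mul]
      rw [← Finset.sum_filter, Finset.filter_mem_eq_inter, Finset.inter_eq_right.2 hXsub,
        Finset.sum_div]
      exact Finset.sum_congr rfl fun v _ => by ring
    refine ⟨m, hm, fun v => s v - (if v ∈ X then l v / l m else 0) + (if v = m then 1 else 0),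
      ?_, ?_, ?_⟩
    · intro v hv
      have hsv := hs v hv
      by_cases hvX : v ∈ X
      · have h3 := hcase v hvX
        have h4 : l v / l m ≤ 1 := by rw [div_le_one hm0]; exact hmax v hvX
        have h5 : 0 ≤ l v / l m := div_nonneg (hl0 v hvX) hm0.le
        by_cases hvm : v = m
        · subst hvm
          simp only [if_pos hvX, if_true]
          rw [div_self hm0.ne']
          constructor <;> linarith
        · simp only [if_pos hvX, if_neg hvm]
          constructor <;> linarith
      · have hvm : v ≠ m := fun h => hvX (h ▸ hm)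
        simp only [if_neg hvX, if_neg hvm]
        constructor <;> linarith
    · simp only [add_mul, sub_mul, Finset.sum_add_distrib, Finset.sum_sub_distrib]
      rw [h1, hsumX, hla]
      simp only [ite_mul, one_mul, zero_mul]
      rw [Finset.sum_ite_eq', if_pos (hXsub hm)]
      simp
    · simp only [add_mul, sub_mul, Finset.sum_add_distrib, Finset.sum_sub_distrib]
      rw [h2, hsumX, hlb]
      simp only [ite_mul, one_mul, zero_mul]
      rw [Finset.sum_ite_eq', if_pos (hXsub hm)]
      simp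

theorem island (hall : ∀ θ, θ ∈ stableAngles U) {A : Set Site} (hA : ∀ x ∈ Zono U, x ∉ A)
    (t : ℕ) : ∀ x ∈ Zono U, x ∉ evo U t A := by
  induction t with
  | zero => exact hA
  | succ t ih =>
    intro x hx hcon
    rw [evo_succ] at hcon
    rcases hcon with h | ⟨X, hX, hy⟩
    · exact ih x hx h
    · obtain ⟨y, hyX, hz⟩ := Zono_step hall hX hx
      exact ih _ hz (hy y hyX)

theorem coin_false_pos {p : ℝ} (hp : p < 1) : coin p {false} ≠ 0 := by
  have h : (Set.projIcc (0 : ℝ) 1 zero_le_one p : ℝ) < 1 := by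
    rw [Set.coe_projIcc]
    exact max_lt zero_lt_one (lt_of_le_of_lt (min_le_right _ _) hp)
  unfold coin
  simp only [Measure.coe_add, Measure.coe_smul, Pi.add_apply, Pi.smul_apply, smul_eq_mul]
  rw [Measure.dirac_apply_of_mem (Set.mem_singleton false)]
  intro hcon
  rw [add_eq_zero] at hcon
  rw [mul_one, ENNReal.ofReal_eq_zero] at hcon
  linarith [hcon.2]

theorem not_perc_of_lt (hall : ∀ θ, θ ∈ stableAngles U) {p : ℝ} (hp : p < 1) :
    law p (perc U) ≠ 1 := by
  intro hcon
  set D : Finset Site := (Zono_finite U).toFinset with hD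
  have hE : law p (Set.pi (D : Set Site) fun _ => {false}) ≠ 0 := by
    unfold law
    rw [Measure.infinitePi_pi _ (fun i _ => measurableSet_singleton _)]
    exact Finset.prod_ne_zero_iff.2 fun _ _ => coin_false_pos hp
  have hmeas : MeasurableSet (Set.pi (D : Set Site) fun _ => ({false} : Set Bool)) :=
    MeasurableSet.pi D.countable_toSet fun i _ => measurableSet_singleton _
  have hsub : perc U ⊆ (Set.pi (D : Set Site) fun _ => ({false} : Set Bool))ᶜ := by
    intro ω hω hmem
    have hA : ∀ x ∈ Zono U, x ∉ ini ω := by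
      intro x hx hxA
      have := hmem x (by rw [hD]; simpa using hx)
      simp only [Set.mem_singleton_iff] at this
      unfold ini at hxA
      simp only [Set.mem_ofPred_eq] at hxA
      rw [this] at hxA
      exact absurd hxA (by simp)
    have h0 : (0 : Site) ∈ clos U (ini ω) := by
      have : clos U (ini ω) = Set.univ := hω
      rw [this]; trivial
    obtain ⟨t, ht⟩ := Set.mem_iUnion.1 h0
    exact island hall hA t 0 (zero_mem_Zono U) ht
  have h1 : (1 : ℝ≥0∞) ≤ law p (Set.pi (D : Set Site) fun _ => ({false} : Set Bool))ᶜ := by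
    rw [← hcon]; exact measure_mono hsub
  have h2 : law p (Set.pi (D : Set Site) fun _ => ({false} : Set Bool))ᶜ = 1 :=
    le_antisymm prob_le_one h1
  exact hE ((prob_compl_eq_one_iff hmeas).1 h2)

theorem pc_eq_one (hall : ∀ θ, θ ∈ stableAngles U) : pc U = 1 := by
  refine le_antisymm (pc_le_one U) ?_
  refine le_csInf ⟨1, pc_set_nonempty U⟩ ?_
  rintro p ⟨_, hp1, hp⟩
  by_contra hcon
  exact not_perc_of_lt hall (not_le.1 hcon) hp

theorem mean_T_one (U : Finset (Finset Site)) : ∫⁻ ω, T U ω ∂(law 1) = 0 := by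
  have hT : T U (fun _ => true) = 0 := by
    unfold T
    refine le_antisymm ?_ bot_le
    refine iInf₂_le_of_le 0 ?_ (by simp)
    rw [evo_zero]; simp [ini]
  rw [law_one]
  have hae : T U =ᵐ[Measure.dirac (fun _ => true)] fun _ => 0 := by
    rw [Filter.EventuallyEq, ae_iff]
    have hsub : {ω : Conf | ¬ T U ω = 0} ⊆ {ω | ∃ x, ω x = false} := by
      intro ω hω
      by_contra hcon
      simp only [Set.mem_ofPred_eq, not_exists, Bool.not_eq_false] at hcon
      have : ω = fun _ => true := funext hcon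
      exact hω (by rw [this]; exact hT)
    have hmeas : MeasurableSet {ω : Conf | ∃ x, ω x = false} := by
      have : {ω : Conf | ∃ x, ω x = false} = ⋃ x, (fun ω : Conf => ω x) ⁻¹' {false} := by
        ext ω; simp
      rw [this]
      exact MeasurableSet.iUnion fun x => measurable_pi_apply x (measurableSet_singleton _)
    refine measure_mono_null hsub ?_
    rw [Measure.dirac_apply' _ hmeas]
    simp
  rw [lintegral_congr_ae hae]
  simp

end Pool.Agent.Q297.BC
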