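import Pool.Agent.Q297.BC.Defs

/-!
# Events that depend on finitely many sites
-/

open MeasureTheory ProbabilityTheory Filter Topology
open scoped ENNReal

namespace Pool.Agent.Q297.BC

/-- The event depends only on the sites of `D`. -/
def DepOn (D : Finset Site) (E : Set Conf) : Prop :=
  ∀ ω ω' : Conf, (∀ x ∈ D, ω x = ω' x) → (ω ∈ E ↔ ω' ∈ E)

/-- The trace of an event on `D`. -/
def trace (D : Finset Site) (E : Set Conf) : Set (D → Bool) :=
  {σ | ∃ ω ∈ E, ∀ i : D, ω i = σ i}

theorem DepOn.eq_preimage {D : Finset Site} {E : Set Conf} (h : DepOn D E) :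
    E = (fun (ω : Conf) (i : D) => ω i) ⁻¹' trace D E := by
  ext ω
  simp only [Set.mem_preimage, trace, Set.mem_ofPred_eq]
  constructor
  · intro hω; exact ⟨ω, hω, fun _ => rfl⟩
  · rintro ⟨ω', hω', hi⟩
    exact (h ω' ω fun x hx => hi ⟨x, hx⟩).1 hω'

theorem measurableSet_trace (D : Finset Site) (E : Set Conf) : MeasurableSet (trace D E) :=
  (Set.toFinite _).measurableSet

theorem DepOn.measurable {D : Finset Site} {E : Set Conf} (h : DepOn D E) : MeasurableSet E := by
  rw [h.eq_preimage]
  exact (measurable_pi_lambda _ fun i => measurable_pi_apply _) (measurableSet_trace D E)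

theorem indep (p : ℝ) {D D' : Finset Site} {E F : Set Conf} (hE : DepOn D E) (hF : DepOn D' F)
    (hD : Disjoint D D') : law p (E ∩ F) = law p E * law p F := by
  have h1 : iIndepFun (fun (x : Site) (ω : Conf) => ω x) (law p) :=
    iIndepFun_infinitePi (P := fun _ : Site => coin p) (X := fun _ b => b) (fun _ => measurable_id)
  have h2 := h1.indepFun_finset D D' hD (fun i => measurable_pi_apply i)
  have h3 := h2.measure_inter_preimage_eq_mul _ _ (measurableSet_trace D E) (measurableSet_trace D' F)
  rw [hE.eq_preimage, hF.eq_preimage]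
  exact h3

theorem measurable_shift (a : Site) : Measurable fun (ω : Conf) (x : Site) => ω (x + a) :=
  measurable_pi_iff.2 fun x => measurable_pi_apply (x + a)

theorem shift_law (p : ℝ) (a : Site) :
    (law p).map (fun (ω : Conf) (x : Site) => ω (x + a)) = law p := by
  refine Measure.eq_infinitePi _ fun s t ht => ?_
  rw [Measure.map_apply (measurable_shift a) (MeasurableSet.pi s.countable_toSet fun i _ => ht i)]
  have h1 : (fun (ω : Conf) (x : Site) => ω (x + a)) ⁻¹' (Set.pi (s : Set Site) t) =
      Set.pi ((s.map (Equiv.addRight a).toEmbedding : Finset Site) : Set Site)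
        (fun j => t (j - a)) := by
    ext ω
    simp only [Set.mem_preimage, Set.mem_pi, Finset.mem_coe, Finset.mem_map,
      Equiv.coe_toEmbedding, Equiv.coe_addRight]
    constructor
    · rintro h j ⟨i, hi, rfl⟩
      have := h i hi
      simpa using this
    · intro h i hi
      have := h (i + a) ⟨i, hi, rfl⟩
      simpa using this
  rw [h1]
  unfold law
  rw [Measure.infinitePi_pi _ (fun i _ => ht _), Finset.prod_map]
  simp

theorem law_shift (p : ℝ) (a : Site) {E : Set Conf} (hE : MeasurableSet E) :
    law p {ω | (fun x => ω (x + a)) ∈ E} = law p E := by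
  conv_rhs => rw [← shift_law p a]
  rw [Measure.map_apply (measurable_shift a) hE]
  rfl

/-- The mass of a bit. -/
noncomputable def wt (p : ℝ) (b : Bool) : ℝ :=
  if b = true then (Set.projIcc (0 : ℝ) 1 zero_le_one p : ℝ)
  else 1 - (Set.projIcc (0 : ℝ) 1 zero_le_one p : ℝ)

theorem coin_real (p : ℝ) (b : Bool) : (coin p {b}).toReal = wt p b := by
  have h := (Set.projIcc (0 : ℝ) 1 zero_le_one p).2
  unfold coin wt
  cases b
  · simp [ENNReal.toReal_ofReal, h.2]
  · simp [ENNReal.toReal_ofReal, h.1]

theorem law_real (p : ℝ) {D : Finset Site} {E : Set Conf} (hE : DepOn D E) [DecidablePred (· ∈ trace D E)] :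
    (law p E).toReal = ∑ σ : D → Bool, if σ ∈ trace D E then ∏ i, wt p (σ i) else 0 := by
  have h1 : law p E = Measure.pi (fun _ : D => coin p) (trace D E) := by
    conv_lhs => rw [hE.eq_preimage]
    have := Measure.infinitePi_map_restrict (μ := fun _ : Site => coin p) (I := D)
    rw [← this, Measure.map_apply (Finset.measurable_restrict _) (measurableSet_trace D E)]
    rfl
  rw [h1, ← Finset.sum_filter]
  have h2 : trace D E = ((Finset.univ.filter (· ∈ trace D E) : Finset (D → Bool)) : Set (D → Bool)) := by
    ext σ; simp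
  conv_lhs => rw [h2]
  rw [← measureReal_def, ← sum_measureReal_singleton]
  refine Finset.sum_congr rfl fun σ _ => ?_
  rw [measureReal_def, Measure.pi_singleton, ENNReal.toReal_prod]
  exact Finset.prod_congr rfl fun i _ => coin_real p _

theorem continuous_law {D : Finset Site} {E : Set Conf} (hE : DepOn D E) :
    Continuous fun p : ℝ => (law p E).toReal := by
  classical
  have h : (fun p : ℝ => (law p E).toReal) =
      fun p => ∑ σ : D → Bool, if σ ∈ trace D E then ∏ i, wt p (σ i) else 0 := by
    funext p; exact law_real p hE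
  rw [h]
  refine continuous_finsetSum _ fun σ _ => ?_
  split_ifs
  · refine continuous_finsetProd _ fun i _ => ?_
    unfold wt
    have hc : Continuous fun p : ℝ => (Set.projIcc (0 : ℝ) 1 zero_le_one p : ℝ) :=
      continuous_subtype_val.comp continuous_projIcc
    split_ifs
    · exact hc
    · exact continuous_const.sub hc
  · exact continuous_const

end Pool.Agent.Q297.BC
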